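import Pool.Agent.Lib.MP_f35bed_an.Reps
import Pool.Agent.Lib.MP_f35bed_an.DefsLip

/-!
A continuous map from the sphere of dimension `m` to a compact manifold whose weak derivative of
order `m` has integral at most `lam`, up to an allowance for terms of lower order, is homotopic to
a map whose Lipschitz constant is at most linear in `lam`.
-/

open scoped Manifold ContDiff

namespace Pool.Agent.Results.MP_f35bed_an.LipschitzReps

open Pool.Agent.Lib.MP_f35bed_an

universe u

theorem result {n ν m : ℕ} (hm : 1 ≤ m) {N : Type u} [TopologicalSpace N]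
    [ChartedSpace (EuclideanSpace ℝ (Fin n)) N] [IsManifold (𝓡 n) ∞ N] [CompactSpace N]
    (ι : N → EuclideanSpace ℝ (Fin ν)) (hι : IsInjImmersion (EuclideanSpace ℝ (Fin n)) ι) (L : ℝ) :
    ∃ C : ℝ, ∀ lam : ℝ, 0 ≤ lam →
      LipReps ι (fun f : Sph m → N => EnergyLeLower (fun x => ι (f x)) lam L) (C * (1 + lam)) := by
  obtain ⟨C, h⟩ := lip_reps hm ι hι L
  refine ⟨C, fun lam hl f hf => ?_⟩
  obtain ⟨S, -, h1, h2⟩ := h lam hl
  obtain ⟨g, hg, h3⟩ := h2 f hf
  exact ⟨g, h3, h1 g hg⟩

end Pool.Agent.Results.MP_f35bed_an.LipschitzReps
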